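import Pool.Agent.Helper9.PP.Basic
import Pool.Agent.Helper90.FJ.Dual

/-!
Project PP (helper9): package MOD, modifications of bundles at a point.
-/

set_option autoImplicit false
set_option linter.unusedSectionVars false

namespace Pool.Agent.Helper25.PP

open FF Module Pool.Agent.Helper9.FJ Pool.Agent.Helper9.PP

theorem det_expand {R : Type*} [CommRing R] {ι : Type} [Fintype ι] [DecidableEq ι] {ρ : ℕ}
    (Y : Matrix (Fin ρ) ι R) (N : Matrix ι (Fin ρ) R) :
    (Y * N).det = ∑ S : Fin ρ → ι, (∏ i, Y i (S i)) * (N.submatrix S id).det := by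
  classical
  have h1 := (Matrix.detRowAlternating (n := Fin ρ) (R := R)).toMultilinearMap.map_sum
    (fun (i : Fin ρ) (j : ι) => Y i j • N j)
  have h2 : (fun i : Fin ρ => ∑ j : ι, Y i j • N j) = (Y * N : Matrix (Fin ρ) (Fin ρ) R) := by
    funext i l
    rw [Finset.sum_apply, Matrix.mul_apply]
    rfl
  rw [h2] at h1
  have h3 : (Y * N).det = _ := h1
  rw [h3]
  refine Finset.sum_congr rfl fun S _ => ?_
  exact (Matrix.detRowAlternating (n := Fin ρ) (R := R)).toMultilinearMap.map_smul_univ
    (fun i : Fin ρ => Y i (S i)) (fun i => N (S i))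

/-- **Package MOD.** -/
theorem mod : S_MOD := by
  classical
  intro K _ _ _ ι _ _ F β P1 z hz ⟨i0, hy0, hyo⟩ hF
  obtain ⟨y, hy⟩ : ∃ y, y = (F.B P1).mulVec z := ⟨_, rfl⟩
  rw [← hy] at hz hy0 hyo
  obtain ⟨t, ht0, ht⟩ := P1.surj
  have hti : P1.ord t⁻¹ = -1 := by rw [P1.ord_inv, ht]
  have hq : ∀ i, Ge P1 0 (y i / y i0) := by
    intro i
    refine Ge.of_mul (a := y i0) hy0 ?_
    rw [mul_div_cancel₀ _ hy0, hyo, add_zero]
    exact hz i
  obtain ⟨U, hU⟩ : ∃ U : Matrix ι ι K, U = Matrix.of fun i j => if i = i0 then
      (if j = i0 then t else 0) else ((if j = i then 1 else 0) - if j = i0 then y i / y i0 else 0) :=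
    ⟨_, rfl⟩
  obtain ⟨V, hV⟩ : ∃ V : Matrix ι ι K, V = Matrix.of fun i j => if i = i0 then
      (if j = i0 then t⁻¹ else 0) else ((if j = i then 1 else 0) +
        if j = i0 then y i / y i0 * t⁻¹ else 0) := ⟨_, rfl⟩
  have hUV : U * V = 1 := by
    ext i j
    rw [Matrix.mul_apply, hU, hV]
    simp only [Matrix.of_apply]
    by_cases hi : i = i0
    · subst hi
      simp only [if_true, ite_mul, zero_mul, Finset.sum_ite_eq', Finset.mem_univ]
      rw [Matrix.one_apply]
      by_cases hj : j = i
      · subst hj
        simp [ht0]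
      · simp [hj, Ne.symm hj]
    · simp only [hi, if_false, sub_mul, ite_mul, one_mul, zero_mul, Finset.sum_sub_distrib,
        Finset.sum_ite_eq', Finset.mem_univ, if_true]
      rw [Matrix.one_apply]
      by_cases hj : j = i0
      · subst hj
        simp [hi, Ne.symm hi]
      · by_cases hij : j = i
        · subst hij
          simp [hj]
        · simp [hj, hij, Ne.symm hij]
  have hVU : V * U = 1 := mul_eq_one_comm.1 hUV
  have hU0 : ∀ i j, Ge P1 0 (U i j) := by
    intro i j
    rw [hU, Matrix.of_apply]
    have ht1 : Ge P1 0 t := Or.inr (by rw [ht]; norm_num)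
    split_ifs
    · exact ht1
    · exact ge_zero
    · exact ge_one.sub (hq i)
    · exact ge_one.sub ge_zero
    · exact ge_zero.sub (hq i)
    · exact ge_zero.sub ge_zero
  have hV0 : ∀ i j, Ge P1 (if j = i0 then -1 else 0) (V i j) := by
    intro i j
    rw [hV, Matrix.of_apply]
    have ht1 : Ge P1 (-1) t⁻¹ := Or.inr (by rw [hti])
    have ht2 : Ge P1 (-1) (y i / y i0 * t⁻¹) := by
      have := (hq i).mul ht1
      rwa [zero_add] at this
    by_cases hj : j = i0
    · rw [if_pos hj, if_pos hj, if_pos hj]
      split_ifs
      · exact ht1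
      · exact (ge_one.mono (by norm_num)).add ht2
      · exact ge_zero.add ht2
    · rw [if_neg hj, if_neg hj, if_neg hj]
      split_ifs
      · exact ge_zero
      · exact ge_one.add ge_zero
      · exact ge_zero.add ge_zero
  have hdetU : U.det ≠ 0 := by
    intro h
    have := congrArg Matrix.det hUV
    rw [Matrix.det_mul, h, zero_mul, Matrix.det_one] at this
    exact zero_ne_one this
  let F' : Bn K ι :=
    { B := fun P => if P = P1 then U * F.B P1 else F.B P
      det_ne := by
        intro P
        split_ifs
        · rw [Matrix.det_mul]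
          exact mul_ne_zero hdetU (F.det_ne P1)
        · exact F.det_ne P
      fin := by
        refine (F.fin.union (Set.finite_singleton P1)).subset fun P hP => ?_
        by_cases h : P = P1
        · exact Or.inr h
        · left
          have h1 : (if P = P1 then U * F.B P1 else F.B P) ≠ 1 := hP
          rwa [if_neg h] at h1 }
  have hB1 : F'.B P1 = U * F.B P1 := if_pos rfl
  have hB : ∀ P, P ≠ P1 → F'.B P = F.B P := fun P hP => if_neg hP
  have hB2 : F.B P1 = V * F'.B P1 := by
    rw [hB1, ← Matrix.mul_assoc, hVU, Matrix.one_mul]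
  refine ⟨F', ?_, hB, ?_, U, hU0, hB1⟩
  · intro ρ Λ d' hρ hd'
    obtain ⟨S0, hS0, -⟩ := (hd' P1).2
    obtain ⟨d, hd⟩ := exists_qt F (Λ := Λ)
      (Y := ((F'.B P1 * Λ).submatrix S0 id)⁻¹ * (F'.B P1).submatrix S0 id) (by
        rw [Matrix.mul_assoc]
        have h1 : (F'.B P1).submatrix S0 id * Λ = (F'.B P1 * Λ).submatrix S0 id := by
          ext i j
          rw [Matrix.mul_apply, Matrix.submatrix_apply, Matrix.mul_apply]
          rfl
        rw [h1, Matrix.nonsing_inv_mul _ (isUnit_iff_ne_zero.2 hS0)])
    have h1 : d ≤ d' + Finsupp.single P1 1 := by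
      intro P
      rw [Finsupp.add_apply]
      obtain ⟨S, hS, hSo⟩ := (hd P).2
      by_cases hP : P = P1
      · subst hP
        rw [Finsupp.single_eq_same]
        have h2 : Ge P (-1 + -d' P) ((F.B P * Λ).submatrix S id).det := by
          have h3 : (F.B P * Λ).submatrix S id = V.submatrix S id * (F'.B P * Λ) := by
            rw [hB2, Matrix.mul_assoc]
            ext i j
            rw [Matrix.mul_apply, Matrix.submatrix_apply, Matrix.mul_apply]
            rfl
          rw [h3, det_expand]
          refine Ge.sum _ fun S' _ => ?_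
          by_cases hinj : Function.Injective S'
          · refine Ge.mul ?_ ((hd' P).1 S')
            have h4 := Ge.prod (P := P) Finset.univ (F := fun i => V.submatrix S id i (S' i))
              (n := fun i => if S' i = i0 then -1 else 0) fun i _ => hV0 _ _
            refine h4.mono ?_
            rw [Finset.sum_ite, Finset.sum_const_zero, add_zero, Finset.sum_const, nsmul_eq_mul]
            have h5 : (Finset.univ.filter fun i => S' i = i0).card ≤ 1 := by
              rw [Finset.card_le_one]
              intro a ha b hb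
              exact hinj ((Finset.mem_filter.1 ha).2.trans (Finset.mem_filter.1 hb).2.symm)
            have h6 : ((Finset.univ.filter fun i => S' i = i0).card : ℤ) ≤ 1 := by exact_mod_cast h5
            linarith
          · rw [Function.Injective] at hinj
            push Not at hinj
            obtain ⟨a, b, hab, hne⟩ := hinj
            left
            rw [Matrix.det_zero_of_row_eq hne (by
              funext l
              rw [Matrix.submatrix_apply, Matrix.submatrix_apply, hab]), mul_zero]
        rw [ge_iff hS, hSo] at h2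
        linarith
      · rw [Finsupp.single_eq_of_ne hP, add_zero]
        have h2 := (hd' P).1 S
        rw [hB P hP, ge_iff hS, hSo] at h2
        linarith
    have h2 := ddeg_mono h1
    rw [ddeg_add, ddeg_single, Pool.Agent.Helper90.FJ.deg_one] at h2
    have h3 := hF ρ Λ d hρ hd
    have h4 : β * ρ ≤ ddeg d' := by
      push_cast at h2
      linarith
    exact_mod_cast h4
  · intro i
    rw [hB1, ← Matrix.mulVec_mulVec, ← hy, Matrix.mulVec, dotProduct]
    rw [hU]
    simp only [Matrix.of_apply]
    by_cases hi : i = i0
    · subst hi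
      simp only [if_true, ite_mul, zero_mul, Finset.sum_ite_eq', Finset.mem_univ]
      right
      rw [P1.ord_mul ht0 hy0, ht, hyo]
      norm_num
    · simp only [hi, if_false, sub_mul, ite_mul, one_mul, zero_mul, Finset.sum_sub_distrib,
        Finset.sum_ite_eq', Finset.mem_univ, if_true]
      left
      rw [div_mul_cancel₀ _ hy0, sub_self]

end Pool.Agent.Helper25.PP
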